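import Mathlib

/-!
# The Hilbert scheme of points on affine space: closed points and Zariski topology

Definitions for `MP_5ec99c_ag.InfinitelyManyElementary`.
-/

namespace Pool.Agent.Helper15.HS

open MvPolynomial

universe u

/-- `A` is a `k`-algebra of dimension `r`. -/
def HasDim (k : Type u) [Field k] (A : Type u) [CommRing A] [Algebra k A] (r : ℕ) : Prop :=
  Module.Finite k A ∧ Module.finrank k A = r

/-- The closed points of the Hilbert scheme of `r` points on `𝔸ⁿ` over `k`: the ideals of
`k[x_1, ..., x_n]` of colength `r`. -/
def HilbPt (k : Type u) [Field k] (n r : ℕ) : Type u :=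
  {I : Ideal (MvPolynomial (Fin n) k) // HasDim k (MvPolynomial (Fin n) k ⧸ I) r}

/-- For elements `x l` and a `k`-basis `b` of an algebra `A`: the entries `(i, j)` of the matrices
of multiplication by the `x l`, and the coordinates of `1`. -/
noncomputable def coords {k A : Type u} [Field k] [CommRing A] [Algebra k A] {n r : ℕ}
    (x : Fin n → A) (b : Module.Basis (Fin r) k A) : (Fin n × Fin r × Fin r) ⊕ Fin r → k :=
  Sum.elim (fun t => b.coord t.2.1 (x t.1 * b t.2.2)) (fun i => b.coord i 1)

/-- The polynomials in `T` are equations for the statement `P` about the ideal `I`: for every basis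
`b` of `k[x_1, ..., x_n]/I`, `P` holds if and only if all elements of `T` vanish at `coords x b`. -/
def Equations {k : Type u} [Field k] {n r : ℕ} (I : Ideal (MvPolynomial (Fin n) k))
    (T : Set (MvPolynomial ((Fin n × Fin r × Fin r) ⊕ Fin r) k)) (P : Prop) : Prop :=
  ∀ b : Module.Basis (Fin r) k (MvPolynomial (Fin n) k ⧸ I),
    P ↔ ∀ p ∈ T, eval (coords (fun l => Ideal.Quotient.mk I (X l)) b) p = 0

/-- Zariski closed sets of ideals of colength `r`: the sets `Z` for which there is a set `T` of
polynomials in the coordinates such that, for every ideal `I` of colength `r` and every basis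
`b` of the quotient, `I` is in `Z` if and only if all elements of `T` vanish at `coords x b`. -/
def IsZariskiClosed {k : Type u} [Field k] {n r : ℕ} (Z : Set (HilbPt k n r)) : Prop :=
  ∃ T : Set (MvPolynomial ((Fin n × Fin r × Fin r) ⊕ Fin r) k),
    ∀ I : HilbPt k n r, Equations I.1 T (I ∈ Z)

/-- The Zariski topology. -/
instance zariskiTopology (k : Type u) [Field k] (n r : ℕ) : TopologicalSpace (HilbPt k n r) :=
  TopologicalSpace.generateFrom {U | IsZariskiClosed (compl U)}

/-- The scheme `Spec (k[x_1, ..., x_n]/I)` is irreducible. -/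
def IrreducibleAt {k : Type u} [Field k] {n : ℕ} (I : Ideal (MvPolynomial (Fin n) k)) : Prop :=
  IrreducibleSpace (PrimeSpectrum (MvPolynomial (Fin n) k ⧸ I))

/-- An irreducible component `C` of the Hilbert scheme of `r` points is elementary if the
subscheme corresponding to a general point of `C` is irreducible: there is an open set `U`
meeting `C` such that `Spec (k[x_1, ..., x_n]/I)` is irreducible for all `I ∈ C ∩ U`. -/
def IsElementary {k : Type u} [Field k] {n r : ℕ} (C : Set (HilbPt k n r)) : Prop :=
  C ∈ irreducibleComponents (HilbPt k n r) ∧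
    ∃ U : Set (HilbPt k n r), IsOpen U ∧ (C ∩ U).Nonempty ∧ ∀ I ∈ C ∩ U, IrreducibleAt I.1

end Pool.Agent.Helper15.HS
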