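import Pool.Agent.Helper15.HS.Defs
import Pool.Agent.Helper15.HilbFamily

/-!
# Infinitely many elementary components: the theorem in terms of the definitions in `HS/Defs.lean`
-/

namespace Pool.Agent.Helper15.HS

open MvPolynomial

universe u

theorem coords_eq {k : Type u} [Field k] {n r : ℕ} (I : HilbPt k n r)
    (b : Module.Basis (Fin r) k (MvPolynomial (Fin n) k ⧸ I.1)) :
    coords (fun l => Ideal.Quotient.mk I.1 (X l)) b = Hilb.coords b := by
  funext t
  rcases t with ⟨l, i, j⟩ | i <;> rfl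

theorem closed_iff {k : Type u} [Field k] {n r : ℕ} (Z : Set (Hilb.HilbPt k n r)) :
    IsZariskiClosed (show Set (HilbPt k n r) from Z) ↔ Hilb.IsZariskiClosed Z := by
  constructor
  · rintro ⟨T, h⟩
    refine ⟨T, fun I b => ?_⟩
    have := h I b
    rw [coords_eq] at this
    exact this
  · rintro ⟨T, h⟩
    refine ⟨T, fun I b => ?_⟩
    rw [coords_eq]
    exact h I b

theorem topology_eq {k : Type u} [Field k] {n r : ℕ} :
    zariskiTopology k n r = Hilb.zariskiTopology k n r := by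
  have h : ∀ U : Set (Hilb.HilbPt k n r),
      IsZariskiClosed (show Set (HilbPt k n r) from Uᶜ) ↔ IsOpen U := fun U =>
    (closed_iff (Uᶜ : Set (Hilb.HilbPt k n r))).trans
      ((Hilb.isClosed_iff (Uᶜ : Set (Hilb.HilbPt k n r))).symm.trans isClosed_compl_iff)
  have h2 : {U : Set (HilbPt k n r) | IsZariskiClosed Uᶜ}
      = {U : Set (HilbPt k n r) | @IsOpen (HilbPt k n r) (Hilb.zariskiTopology k n r) U} :=
    Set.ext h
  unfold zariskiTopology
  rw [h2]
  exact TopologicalSpace.generateFrom_setOfPred_isOpen _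

theorem elementary {k : Type u} [Field k] {n r : ℕ} {C : Set (Hilb.HilbPt k n r)}
    (h : Hilb.IsElementary C) : IsElementary (show Set (HilbPt k n r) from C) := by
  unfold IsElementary
  rw [topology_eq]
  exact h

theorem large (k : Type u) [Field k] [IsAlgClosed k] (R : ℕ) :
    ∃ r : ℕ, R < r ∧ r ≤ 28 * (84 * R + 29) ^ 3 ∧ ∃ C : Set (HilbPt k 3 r), IsElementary C := by
  have : Infinite k := IsAlgClosed.instInfinite
  obtain ⟨r, h1, h2, C, hC⟩ := Hilb.exists_elementary (k := k) R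
  exact ⟨r, h1, h2, C, elementary hC⟩

theorem main (k : Type u) [Field k] [IsAlgClosed k] :
    {p : Σ r : ℕ, Set (HilbPt k 3 r) | 1 ≤ p.1 ∧ IsElementary p.2}.Infinite ∧
    ∀ R : ℕ, ∃ r : ℕ, R < r ∧ r ≤ 28 * (84 * R + 29) ^ 3 ∧
      ∃ C : Set (HilbPt k 3 r), IsElementary C := by
  refine ⟨fun hfin => ?_, large k⟩
  have hb : BddAbove (Sigma.fst '' {p : Σ r : ℕ, Set (HilbPt k 3 r) | 1 ≤ p.1 ∧
      IsElementary p.2}) := (hfin.image _).bddAbove
  obtain ⟨R, hR⟩ := hb
  obtain ⟨r, hr, -, C, hC⟩ := large k R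
  have : r ≤ R := hR ⟨⟨r, C⟩, ⟨by show 1 ≤ r; omega, hC⟩, rfl⟩
  omega

end Pool.Agent.Helper15.HS
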